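import Pool.Agent.H5.LoopCycle

set_option autoImplicit false

namespace Pool.Agent.Results.MP_541c26_co.NotFive

/-- Least rank of a real symmetric completion of the partial matrix on the looped cycle with
loop values `x.1 i` and edge values `x.2 i` on the edge from `i` to `i + 1` (cyclically). -/
noncomputable def minRank (n : ℕ) (x : (Fin n → ℝ) × (Fin n → ℝ)) : ℕ :=
  sInf {r | ∃ M : Matrix (Fin n) (Fin n) ℝ, M.IsSymm ∧ (∀ i, M i i = x.1 i) ∧
    (∀ i, M i (finRotate n i) = x.2 i) ∧ M.rank = r}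

/-- `r` is a typical rank of the looped cycle on `n` vertices. -/
def IsTypicalRank (n r : ℕ) : Prop :=
  (interior {x : (Fin n → ℝ) × (Fin n → ℝ) | minRank n x = r}).Nonempty

theorem result (n : ℕ) (hn : 3 ≤ n) (r : ℕ) (h : IsTypicalRank n r) : r ≤ 4 := by
  obtain ⟨x, hx⟩ := h
  obtain ⟨M, h1, h2, h3, h4⟩ := H5.LoopCycle.main n hn x.1 x.2
  have h5 := interior_subset hx
  rw [Set.mem_ofPred_eq] at h5
  rw [← h5]
  refine le_trans (Nat.sInf_le ?_) h4
  exact ⟨M, h1, h2, h3, rfl⟩

end Pool.Agent.Results.MP_541c26_co.NotFive
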